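import Pool.Agent.KDT.StmtsM

set_option autoImplicit false

/-!
Row TRS of squad KDT, block Z (MP_160b6c_nt): composition preserves specialisations.
-/

namespace Pool.Agent.KDT.H60

open Pool.Agent.KDT.Z

theorem ztrs (h1 : CppStatement) (h2 : SubStatement) : TrsStatement := by
  intro k U _ _ _ f4 q t t' hspc hr hro hr' hro' G hG
  obtain ⟨N, D, hN, hD, hE⟩ := h1 k f4 t
  obtain ⟨G', -, hG'⟩ := h2 4 G.totalDegree 20 k G N D le_rfl hN hD
  obtain ⟨hU1, hU2⟩ := hE U q
  have hDU : MvPolynomial.aeval q D ≠ 0 := hU1.2 ⟨hr, hro⟩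
  have hcU : (fun i => MvPolynomial.aeval q (N i) / MvPolynomial.aeval q D)
      = cmp (algebraMap k U f4) q (emb U t) := by
    funext i
    exact (hU2 hDU i).symm
  have hzU : MvPolynomial.aeval q G' = 0 := by
    rw [hG' U q hDU, hcU, hG, mul_zero]
  have hzk : MvPolynomial.eval t' G' = 0 := hspc G' hzU
  have hemb : emb k t = t := by
    funext i
    rfl
  obtain ⟨hk1, hk2⟩ := hE k t'
  rw [hemb] at hk1 hk2
  have hDk : MvPolynomial.aeval t' D ≠ 0 := hk1.2 ⟨hr', hro'⟩
  have hck : (fun i => MvPolynomial.aeval t' (N i) / MvPolynomial.aeval t' D)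
      = cmp f4 t' t := by
    funext i
    exact (hk2 hDk i).symm
  have h3 := hG' k t' hDk
  rw [hck] at h3
  have h4 : MvPolynomial.aeval t' G' = 0 := by
    rw [MvPolynomial.aeval_eq_eval]
    exact hzk
  rw [h4] at h3
  have h5 : MvPolynomial.aeval (cmp f4 t' t) G = 0 := by
    rcases mul_eq_zero.1 h3.symm with h | h
    · exact absurd h (pow_ne_zero _ hDk)
    · exact h
  rw [MvPolynomial.aeval_eq_eval] at h5
  exact h5

end Pool.Agent.KDT.H60
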